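import Pool.Agent.H20.SM.Targets
import Pool.Agent.H59.CV.SQ
import Pool.Agent.H1.CV.WV
import Pool.Agent.H56.CV.SH
import Pool.Agent.H34.CV.GB
import Pool.Agent.H86.CV.DV

/-!
# MP_347b49_nt, SM, row SQc: the sum over the ideals prime to `m`
-/

set_option autoImplicit false

open NumberField NumberField.InfinitePlace Complex Filter Topology MeasureTheory

namespace Pool.Agent.H14.SM

open Pool.Agent.H28.RC Pool.Agent.H25.HK Pool.Agent.H37.CV Pool.Agent.H20.SM Pool.Agent.H59.CV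

section
variable {K : Type} [Field K] [NumberField K]

theorem sqc_mem_pf {m : Ideal (𝓞 K)} (hm : m ≠ ⊥) {P : PrI K} (hP : m ≤ P.1) : P ∈ pf m := by
  classical
  have hfin : {P : PrI K | m ≤ P.1}.Finite := by
    refine Set.Finite.of_finite_image (f := Subtype.val) ?_ Subtype.val_injective.injOn
    refine (Ideal.finite_factors hm |>.image fun v => v.asIdeal).subset ?_
    rintro _ ⟨P, hP, rfl⟩
    exact ⟨⟨P.1, P.2.1, P.2.2⟩, Ideal.dvd_iff_le.2 hP, rfl⟩
  unfold pf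
  rw [dif_pos hfin]
  exact hfin.mem_toFinset.2 hP

theorem sqc_bound {C : ℝ} (h : NB K C) {m : Ideal (𝓞 K)} (hm : m ≠ ⊥) {Z : ℝ} (hZ0 : 0 < Z)
    (X : Finset (Ideal (𝓞 K))) (hX : ∀ I ∈ X, I ≠ ⊥ ∧ I ⊔ m ≠ ⊤) :
    ∑ I ∈ X, (nm I)⁻¹ * min 1 ((Z / nm I ^ 2) ^ 1) ≤
      32 / 3 * C * (1 + max (Real.log Z) 0) * rc m := by
  classical
  have hC := h.nonneg
  have hmax : 0 ≤ max (Real.log Z) 0 := le_max_right _ _
  rcases X.eq_empty_or_nonempty with rfl | ⟨I₀, hI₀⟩
  · rw [Finset.sum_empty]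
    have : 0 ≤ rc m := Finset.sum_nonneg fun P _ => inv_nonneg.2 (Nat.cast_nonneg _)
    positivity
  obtain ⟨P₀, _⟩ := exists_prime_over (hX I₀ hI₀).1 (hX I₀ hI₀).2
  have hch : ∀ I : Ideal (𝓞 K), ∃ P : PrI K, I ∈ X → I ≤ P.1 ∧ m ≤ P.1 := by
    intro I
    by_cases hI : I ∈ X
    · obtain ⟨P, hP⟩ := exists_prime_over (hX I hI).1 (hX I hI).2
      exact ⟨P, fun _ => hP⟩
    · exact ⟨P₀, fun h => absurd h hI⟩
  choose p hp using hch
  rw [← Finset.sum_fiberwise_of_maps_to (t := pf m) (g := p)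
    (fun I hI => sqc_mem_pf hm (hp I hI).2)]
  have hone : ∀ P ∈ pf m, ∑ I ∈ X.filter (fun I => p I = P),
      (nm I)⁻¹ * min 1 ((Z / nm I ^ 2) ^ 1) ≤
        32 / 3 * C * (1 + max (Real.log Z) 0) * (np P)⁻¹ := by
    intro P _
    have hch2 : ∀ I : Ideal (𝓞 K), ∃ J, I ∈ X.filter (fun I => p I = P) → I = P.1 * J := by
      intro I
      by_cases hI : I ∈ X.filter (fun I => p I = P)
      · rw [Finset.mem_filter] at hI
        have h1 : I ≤ P.1 := hI.2 ▸ (hp I hI.1).1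
        obtain ⟨J, hJ⟩ := Ideal.dvd_iff_le.2 h1
        exact ⟨J, fun _ => hJ⟩
      · exact ⟨⊤, fun h => absurd h hI⟩
    choose j hj using hch2
    have hinj : Set.InjOn j (X.filter (fun I => p I = P)) := by
      intro I hI I' hI' h1
      rw [hj I (Finset.mem_coe.1 hI), hj I' (Finset.mem_coe.1 hI'), h1]
    have h5 : 1 ≤ np P := one_le_nm P.2.2
    have h4 : 0 < np P := by linarith
    calc ∑ I ∈ X.filter (fun I => p I = P), (nm I)⁻¹ * min 1 ((Z / nm I ^ 2) ^ 1)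
        ≤ ∑ I ∈ X.filter (fun I => p I = P),
            (np P)⁻¹ * ((nm (j I))⁻¹ * min 1 ((Z / nm (j I) ^ 2) ^ 1)) := by
          refine Finset.sum_le_sum fun I hI => ?_
          have h1 := hj I hI
          have hI0 : I ≠ ⊥ := (hX I (Finset.mem_filter.1 hI).1).1
          have hj0 : j I ≠ ⊥ := by
            intro h2
            rw [h2, Ideal.mul_bot] at h1
            exact hI0 h1
          have h2 : nm I = np P * nm (j I) := by
            conv_lhs => rw [h1]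
            exact nm_mul _ _
          have h3 : 1 ≤ nm (j I) := one_le_nm hj0
          rw [h2, pow_one, pow_one]
          have h6 : Z / (np P * nm (j I)) ^ 2 ≤ Z / nm (j I) ^ 2 := by
            refine div_le_div_of_nonneg_left hZ0.le (by positivity) ?_
            rw [mul_pow]
            have : 1 ≤ np P ^ 2 := one_le_pow₀ h5
            nlinarith [sq_nonneg (nm (j I))]
          calc (np P * nm (j I))⁻¹ * min 1 (Z / (np P * nm (j I)) ^ 2)
              ≤ (np P * nm (j I))⁻¹ * min 1 (Z / nm (j I) ^ 2) :=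
                mul_le_mul_of_nonneg_left (min_le_min le_rfl h6) (by positivity)
            _ = (np P)⁻¹ * ((nm (j I))⁻¹ * min 1 (Z / nm (j I) ^ 2)) := by
                rw [mul_inv]
                ring
      _ = (np P)⁻¹ * ∑ J ∈ (X.filter (fun I => p I = P)).image j,
            ((nm J)⁻¹ * min 1 ((Z / nm J ^ 2) ^ 1)) := by
          rw [← Finset.mul_sum, Finset.sum_image hinj]
      _ ≤ (np P)⁻¹ * (32 / 3 * C * (1 + max (Real.log Z) 0) * min 1 (Z ^ 1)) := by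
          refine mul_le_mul_of_nonneg_left (bound h 1 le_rfl hZ0 _ ?_) (by positivity)
          intro J hJ
          obtain ⟨I, hI, rfl⟩ := Finset.mem_image.1 hJ
          intro h2
          have h1 := hj I hI
          rw [h2, Ideal.mul_bot] at h1
          exact (hX I (Finset.mem_filter.1 hI).1).1 h1
      _ ≤ (np P)⁻¹ * (32 / 3 * C * (1 + max (Real.log Z) 0) * 1) := by
          refine mul_le_mul_of_nonneg_left (mul_le_mul_of_nonneg_left (min_le_left _ _) ?_)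
            (by positivity)
          positivity
      _ = _ := by ring
  refine (Finset.sum_le_sum hone).trans (le_of_eq ?_)
  rw [← Finset.mul_sum]
  rfl

end

theorem sqc (hWV : T_WV) (hDV : T_DV) : T_SQc := by
  classical
  intro K _ _ _
  obtain ⟨C, hC⟩ := (hDV K).2
  have hNB : NB K C := hC
  have hC0 := hNB.nonneg
  have key := @tp_key K _ _
  obtain ⟨D, hD0, hD⟩ := norm_tm_le (K := K) hWV 1
  refine ⟨(D + 1) * (32 / 3 * (C + 1)), by positivity, fun m Z hm hZ0 => ?_⟩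
  have hmax : 0 ≤ max (Real.log Z) 0 := le_max_right _ _
  have hrc : 0 ≤ rc m := Finset.sum_nonneg fun P _ => inv_nonneg.2 (Nat.cast_nonneg _)
  have hA := key (D * (32 / 3 * C * (1 + max (Real.log Z) 0) * min 1 (Z ^ 1))) Z
    (fun t => t ⊔ ⊤ = ⊤) (by
      intro X hX
      calc ∑ I ∈ X, ‖tm K Z I‖ ≤ ∑ I ∈ X, D * ((nm I)⁻¹ * min 1 ((Z / nm I ^ 2) ^ 1)) :=
            Finset.sum_le_sum fun I hI => hD Z I hZ0 (hX I hI).1
        _ = D * ∑ I ∈ X, ((nm I)⁻¹ * min 1 ((Z / nm I ^ 2) ^ 1)) := by rw [Finset.mul_sum]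
        _ ≤ _ := mul_le_mul_of_nonneg_left
            (bound hNB 1 le_rfl hZ0 X fun I hI => (hX I hI).1) hD0)
  have hB := key (D * (32 / 3 * C * (1 + max (Real.log Z) 0) * rc m)) Z
    (fun t => t ⊔ m ≠ ⊤) (by
      intro X hX
      calc ∑ I ∈ X, ‖tm K Z I‖ ≤ ∑ I ∈ X, D * ((nm I)⁻¹ * min 1 ((Z / nm I ^ 2) ^ 1)) :=
            Finset.sum_le_sum fun I hI => hD Z I hZ0 (hX I hI).1
        _ = D * ∑ I ∈ X, ((nm I)⁻¹ * min 1 ((Z / nm I ^ 2) ^ 1)) := by rw [Finset.mul_sum]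
        _ ≤ _ := mul_le_mul_of_nonneg_left (sqc_bound hNB hm hZ0 X hX) hD0)
  have hdiff : Sm (K := K) ⊤ Z - Sm m Z = ∑' t : NI K, tp (fun t => t ⊔ m ≠ ⊤) Z t := by
    rw [Sm_eq, Sm_eq]
    have hsub : Summable (fun t : NI K => tp (fun t => t ⊔ m = ⊤) Z t) := by
      refine Summable.of_norm (hA.1.of_nonneg_of_le (fun _ => norm_nonneg _) fun t => ?_)
      rw [tp_pos (p := fun t => t ⊔ ⊤ = ⊤) (sup_top_eq t.1)]
      by_cases ht : t.1 ⊔ m = ⊤
      · rw [tp_pos ht]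
      · rw [tp_neg ht, norm_zero]
        exact norm_nonneg _
    rw [← (Summable.of_norm hA.1).tsum_sub hsub]
    refine tsum_congr fun t => ?_
    rw [tp_pos (p := fun t => t ⊔ ⊤ = ⊤) (sup_top_eq t.1)]
    by_cases ht : t.1 ⊔ m = ⊤
    · rw [tp_pos (p := fun t => t ⊔ m = ⊤) ht,
        tp_neg (p := fun t => t ⊔ m ≠ ⊤) (not_not.2 ht), sub_self]
    · rw [tp_neg (p := fun t => t ⊔ m = ⊤) ht,
        tp_pos (p := fun t => t ⊔ m ≠ ⊤) ht, sub_zero]
  rw [norm_sub_rev, hdiff]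
  refine hB.2.trans ?_
  have hX0 : 0 ≤ (1 + max (Real.log Z) 0) * rc m := by positivity
  calc D * (32 / 3 * C * (1 + max (Real.log Z) 0) * rc m)
      = (D * (32 / 3 * C)) * ((1 + max (Real.log Z) 0) * rc m) := by ring
    _ ≤ ((D + 1) * (32 / 3 * (C + 1))) * ((1 + max (Real.log Z) 0) * rc m) := by
        refine mul_le_mul_of_nonneg_right ?_ hX0
        nlinarith
    _ = _ := by ring

theorem pf_SQc : T_SQc :=
  sqc (Pool.Agent.H1.CV.pf_WV Pool.Agent.H56.CV.pf_SH Pool.Agent.H34.CV.pf_GB)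
    Pool.Agent.H86.CV.pf_DV

end Pool.Agent.H14.SM
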