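import Pool.Agent.H20.SM.Targets
import Pool.Agent.H46.CV.PS
import Pool.Agent.H69.CV.LR
import Pool.Agent.H69.CV.LM
import Pool.Agent.H97.CV.BG
import Pool.Agent.H97.CV.PG
import Pool.Agent.H86.CV.CR
import Pool.Agent.H86.CV.DV

/-!
# MP_347b49_nt, SM, row CH1: sums over all relations
-/

set_option autoImplicit false

open NumberField NumberField.InfinitePlace Complex Filter Topology MeasureTheory

namespace Pool.Agent.H14.SM

open Pool.Agent.H28.RC Pool.Agent.H25.HK Pool.Agent.H37.CV Pool.Agent.H20.SM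

theorem nm_pos' {K : Type} [Field K] [NumberField K] {I : Ideal (𝓞 K)} (h : I ≠ ⊥) :
    1 ≤ nm I := by
  unfold nm
  exact_mod_cast Nat.one_le_iff_ne_zero.2 (fun h0 => h (Ideal.absNorm_eq_zero_iff.1 h0))

theorem ch1_aux {Y N : ℝ} (hY : 1 ≤ Y) (hN : 1 ≤ N) : ∃ j : ℕ, N ≤ 2 ^ j * Y ∧
    min 1 ((Y / N) ^ 2) ≤ 4 * (1 / 4) ^ j := by
  classical
  have hex : ∃ j : ℕ, N ≤ 2 ^ j * Y := by
    obtain ⟨j, hj⟩ := pow_unbounded_of_one_lt N (by norm_num : (1 : ℝ) < 2)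
    refine ⟨j, hj.le.trans ?_⟩
    have : (0 : ℝ) < 2 ^ j := by positivity
    nlinarith
  refine ⟨Nat.find hex, Nat.find_spec hex, ?_⟩
  rcases Nat.eq_zero_or_pos (Nat.find hex) with h0 | h0
  · rw [h0]
    refine (min_le_left _ _).trans ?_
    norm_num
  · obtain ⟨i, hi⟩ : ∃ i, Nat.find hex = i + 1 := ⟨Nat.find hex - 1, by omega⟩
    have h1 : ¬ N ≤ 2 ^ i * Y := Nat.find_min hex (by omega)
    rw [hi]
    refine (min_le_right _ _).trans ?_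
    push Not at h1
    have h2 : (0 : ℝ) < 2 ^ i := by positivity
    have h3 : Y / N ≤ (1 / 2) ^ i := by
      rw [div_le_iff₀ (by linarith)]
      have h4 : ((1 : ℝ) / 2) ^ i * 2 ^ i = 1 := by
        rw [← mul_pow]
        norm_num
      have h5 : (0 : ℝ) < (1 / 2) ^ i := by positivity
      nlinarith [mul_lt_mul_of_pos_left h1 h5]
    have h6 : (Y / N) ^ 2 ≤ ((1 / 2) ^ i) ^ 2 :=
      pow_le_pow_left₀ (by positivity) h3 2
    refine h6.trans (le_of_eq ?_)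
    rw [← pow_mul, mul_comm i 2, pow_mul, pow_succ]
    norm_num
    ring

theorem ch1 (hPS : Pool.Agent.H37.CV.T_PS) : T_CH1 := by
  intro K _ _ ε hε hε1
  obtain ⟨C, hC⟩ := hPS K ε hε
  refine ⟨8 * max C 1, by positivity, ?_⟩
  intro m d Y X hm hmd hY hX
  classical
  have hC1 : C ≤ max C 1 := le_max_left _ _
  have hC0 : 0 < max C 1 := lt_of_lt_of_le one_pos (le_max_right _ _)
  have hN : ∀ p ∈ X, 1 ≤ nm p.1 * nm p.2 := fun p hp =>
    one_le_mul_of_one_le_of_one_le (nm_pos' (hX p hp).1) (nm_pos' (hX p hp).2.1)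
  have hj : ∀ p : Ideal (𝓞 K) × Ideal (𝓞 K), ∃ j : ℕ, p ∈ X → nm p.1 * nm p.2 ≤ 2 ^ j * Y ∧
      min 1 ((Y / (nm p.1 * nm p.2)) ^ 2) ≤ 4 * (1 / 4) ^ j := by
    intro p
    by_cases hp : p ∈ X
    · obtain ⟨j, h1, h2⟩ := ch1_aux hY (hN p hp)
      exact ⟨j, fun _ => ⟨h1, h2⟩⟩
    · exact ⟨0, fun h => absurd h hp⟩
  choose j hj using hj
  set D : ℝ := max C 1 * Y ^ ε * uc d * (1 + Y ^ (1 / 2 : ℝ) / nm d) with hD
  have hnd : 0 ≤ nm d := by unfold nm; positivity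
  have hY0 : 0 < Y := by linarith
  have hD0 : 0 ≤ D := by positivity
  have hfib : ∀ i : ℕ, ∑ p ∈ X.filter (fun p => j p = i),
      wt p * min 1 ((Y / (nm p.1 * nm p.2)) ^ 2) ≤ 4 * D * (1 / 2) ^ i := by
    intro i
    have h2i : (0 : ℝ) < 2 ^ i := by positivity
    have h2i1 : (1 : ℝ) ≤ 2 ^ i := one_le_pow₀ (by norm_num)
    have hR : (1 : ℝ) ≤ 2 ^ i * Y := one_le_mul_of_one_le_of_one_le h2i1 hY
    have h1 := hC m d 1 (2 ^ i * Y) (X.filter (fun p => j p = i)) hm hmd le_rfl hR (by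
      intro p hp
      rw [Finset.mem_filter] at hp
      refine ⟨hX p hp.1, hN p hp.1, ?_⟩
      have := (hj p hp.1).1
      rwa [hp.2] at this)
    have h2 : ∑ p ∈ X.filter (fun p => j p = i),
        wt p * min 1 ((Y / (nm p.1 * nm p.2)) ^ 2) ≤
        (∑ p ∈ X.filter (fun p => j p = i), wt p) * (4 * (1 / 4) ^ i) := by
      rw [Finset.sum_mul]
      refine Finset.sum_le_sum fun p hp => ?_
      rw [Finset.mem_filter] at hp
      have h3 := (hj p hp.1).2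
      rw [hp.2] at h3
      have h4 : 0 ≤ wt p := by
        unfold wt nm
        positivity
      exact mul_le_mul_of_nonneg_left h3 h4
    refine h2.trans ?_
    have h5 : ∑ p ∈ X.filter (fun p => j p = i), wt p ≤ D * 2 ^ i := by
      refine h1.trans ?_
      have e1 : ((2 : ℝ) ^ i * Y) ^ ε ≤ (2 ^ i : ℝ) ^ (1 / 2 : ℝ) * Y ^ ε := by
        rw [Real.mul_rpow h2i.le hY0.le]
        refine mul_le_mul_of_nonneg_right ?_ (by positivity)
        exact Real.rpow_le_rpow_of_exponent_le h2i1 (by linarith)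
      have e2 : ((2 : ℝ) ^ i * Y) ^ (1 / 2 : ℝ) = (2 ^ i : ℝ) ^ (1 / 2 : ℝ) * Y ^ (1 / 2 : ℝ) :=
        Real.mul_rpow h2i.le hY0.le
      have e3 : (1 : ℝ) ≤ (2 ^ i : ℝ) ^ (1 / 2 : ℝ) :=
        Real.one_le_rpow h2i1 (by norm_num)
      have e4 : (2 ^ i : ℝ) ^ (1 / 2 : ℝ) * (2 ^ i : ℝ) ^ (1 / 2 : ℝ) = 2 ^ i := by
        rw [← Real.rpow_add h2i]
        norm_num
      have e5 : (1 : ℝ) ^ (-(1 / 2) : ℝ) + ((2 : ℝ) ^ i * Y) ^ (1 / 2 : ℝ) / nm d ≤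
          (2 ^ i : ℝ) ^ (1 / 2 : ℝ) * (1 + Y ^ (1 / 2 : ℝ) / nm d) := by
        rw [e2, Real.one_rpow, mul_add, mul_one, mul_div_assoc]
        linarith
      have e6 : 0 ≤ (1 : ℝ) ^ (-(1 / 2) : ℝ) + ((2 : ℝ) ^ i * Y) ^ (1 / 2 : ℝ) / nm d := by
        positivity
      calc C * (2 ^ i * Y) ^ ε * uc d *
            ((1 : ℝ) ^ (-(1 / 2) : ℝ) + (2 ^ i * Y) ^ (1 / 2 : ℝ) / nm d)
          ≤ max C 1 * ((2 ^ i : ℝ) ^ (1 / 2 : ℝ) * Y ^ ε) * uc d *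
            ((2 ^ i : ℝ) ^ (1 / 2 : ℝ) * (1 + Y ^ (1 / 2 : ℝ) / nm d)) := by
            gcongr
        _ = D * ((2 ^ i : ℝ) ^ (1 / 2 : ℝ) * (2 ^ i : ℝ) ^ (1 / 2 : ℝ)) := by rw [hD]; ring
        _ = D * 2 ^ i := by rw [e4]
    have h6 : (0 : ℝ) ≤ 4 * (1 / 4) ^ i := by positivity
    refine (mul_le_mul_of_nonneg_right h5 h6).trans (le_of_eq ?_)
    have h7 : (2 : ℝ) ^ i * (1 / 4) ^ i = (1 / 2) ^ i := by
      rw [← mul_pow]
      norm_num
    rw [← h7]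
    ring
  have hsum : ∑ p ∈ X, wt p * min 1 ((Y / (nm p.1 * nm p.2)) ^ 2) =
      ∑ i ∈ X.image j, ∑ p ∈ X.filter (fun p => j p = i),
        wt p * min 1 ((Y / (nm p.1 * nm p.2)) ^ 2) := by
    refine (Finset.sum_fiberwise_of_maps_to (fun p hp => Finset.mem_image_of_mem j hp) _).symm
  rw [hsum]
  calc ∑ i ∈ X.image j, ∑ p ∈ X.filter (fun p => j p = i),
        wt p * min 1 ((Y / (nm p.1 * nm p.2)) ^ 2)
      ≤ ∑ i ∈ X.image j, 4 * D * (1 / 2) ^ i := Finset.sum_le_sum fun i _ => hfib i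
    _ = 4 * D * ∑ i ∈ X.image j, (1 / 2 : ℝ) ^ i := by rw [Finset.mul_sum]
    _ ≤ 4 * D * 2 := by
        refine mul_le_mul_of_nonneg_left ?_ (by positivity)
        have h8 := summable_geometric_two.sum_le_tsum (X.image j) (fun i _ => by positivity)
        rwa [tsum_geometric_two] at h8
    _ = 8 * max C 1 * Y ^ ε * uc d * (1 + Y ^ (1 / 2 : ℝ) / nm d) := by rw [hD]; ring

theorem pf_CH1 : T_CH1 :=
  ch1 (Pool.Agent.H46.CV.pf_PS (Pool.Agent.H69.CV.pf_LR (Pool.Agent.H69.CV.pf_LM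
    Pool.Agent.H97.CV.pf_BG Pool.Agent.H97.CV.pf_PG) Pool.Agent.H97.CV.pf_BG
    Pool.Agent.H86.CV.pf_CR) Pool.Agent.H86.CV.pf_DV)

end Pool.Agent.H14.SM
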